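import Pool.Agent.H72.GP.Targets
import Pool.Agent.H79.PS.TYG
import Pool.Agent.H70.PS.TYM

/-!
Module TYG of the board gpo_modules (logarithms of close Gaussian integers) on `MP_3cf473_nt`:
denominators of the coefficients of the local expansions.
-/

set_option autoImplicit false

open Polynomial Finset

open Pool.Agent.H72.GP

open Pool.Agent.H85.PS (II MM Vec Sup Deg Jf Typ Maj Tay)

namespace Pool.Agent.H2.GPO

open Pool.Agent.H79.PS (SZ mem_SZ typ_iff typ_mono typ_sum typ_int typ_pow typ_prod taylor_int)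

/-- the value of `qn` at `1 / N` -/
lemma qn_at (x y N : ℚ) (hN : N ≠ 0) :
    qn x y (1 / N) = ((N + x) ^ 2 + y ^ 2) / N ^ 2 := by
  unfold qn
  field_simp
  ring

/-- the first parameter of the local expansion at `1 / N` -/
lemma par_x (x y N q : ℚ) (hN : N ≠ 0) (hq : q = (N + x) ^ 2 + y ^ 2) (hq0 : q ≠ 0) :
    q * ((x + (x ^ 2 + y ^ 2) * (1 / N)) / qn x y (1 / N)) = N * (x * N + (x ^ 2 + y ^ 2)) := by
  rw [qn_at x y N hN, ← hq]
  field_simp

/-- the second parameter of the local expansion at `1 / N` -/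
lemma par_y (x y N q : ℚ) (hN : N ≠ 0) (hq : q = (N + x) ^ 2 + y ^ 2) (hq0 : q ≠ 0) :
    q * (y / qn x y (1 / N)) = y * N ^ 2 := by
  rw [qn_at x y N hN, ← hq]
  field_simp

theorem pf_TYG (hTYL : T_TYL) : T_TYG := by
  classical
  intro s D m N κ x y A hN hne hA hint i e'
  have h1 : Pool.Agent.H85.PS.T_TYM := Pool.Agent.H70.PS.pf_TYM
  set q : ℤ := ∏ k, (((N : ℤ) + x k) ^ 2 + y k ^ 2) with hq
  have hN0 : (N : ℚ) ≠ 0 := by
    have : (0 : ℚ) < N := by exact_mod_cast hN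
    exact this.ne'
  -- the local logarithms
  have hlam : ∀ k, Typ q 1 (lamG (κ k) (x k : ℚ) (y k : ℚ) (1 / N)) := by
    intro k
    have h3 : (q : ℚ) = (((N : ℚ) + x k) ^ 2 + (y k : ℚ) ^ 2) *
        ∏ j ∈ univ.erase k, (((N : ℚ) + x j) ^ 2 + (y j : ℚ) ^ 2) := by
      rw [hq, ← Finset.mul_prod_erase _ _ (Finset.mem_univ k)]
      push_cast
      rfl
    have h4 : ((N : ℚ) + x k) ^ 2 + (y k : ℚ) ^ 2 ≠ 0 := by exact_mod_cast hne k
    have hp : ((∏ j ∈ univ.erase k, (((N : ℤ) + x j) ^ 2 + y j ^ 2) : ℤ) : ℚ) =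
        ∏ j ∈ univ.erase k, (((N : ℚ) + x j) ^ 2 + (y j : ℚ) ^ 2) := by
      push_cast
      rfl
    unfold lamG
    refine hTYL q _ _ _ ⟨(∏ j ∈ univ.erase k, (((N : ℤ) + x j) ^ 2 + y j ^ 2)) *
      (N * (x k * N + (x k ^ 2 + y k ^ 2))), ?_⟩
      ⟨(∏ j ∈ univ.erase k, (((N : ℤ) + x j) ^ 2 + y j ^ 2)) * (y k * N ^ 2), ?_⟩
    · rw [Int.cast_mul, hp, h3, mul_comm (((N : ℚ) + x k) ^ 2 + (y k : ℚ) ^ 2), mul_assoc,
        par_x _ _ _ _ hN0 rfl h4]
      push_cast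
      rfl
    · rw [Int.cast_mul, hp, h3, mul_comm (((N : ℚ) + x k) ^ 2 + (y k : ℚ) ^ 2), mul_assoc,
        par_y _ _ _ _ hN0 rfl h4]
      push_cast
      rfl
  have hG : Typ q D (PowerSeries.C ((N : ℚ) ^ m) *
      GG (fun k => lamG (κ k) (x k : ℚ) (y k : ℚ) (1 / N)) (1 / N) D A e') := by
    unfold GG
    rw [Finset.mul_sum]
    refine typ_sum _ _ fun e he => ?_
    have hsum : ∑ k, e k ≤ D := by
      unfold II at he
      exact (Finset.mem_filter.1 he).2
    have hT : Typ q 0 (PowerSeries.C ((N : ℚ) ^ m) *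
        ((taylor (1 / (N : ℚ)) (A e) : ℚ[X]) : PowerSeries ℚ)) := by
      rw [typ_iff]
      intro j
      rw [pow_zero, mul_one, PowerSeries.coeff_C_mul, Polynomial.coeff_coe]
      exact mul_mem (pow_mem (intCast_mem _ _) _) (taylor_int _ _ _ hN (hA e) (hint e) j)
    have hC : Typ q 0 (∏ k, ((e k).choose (e' k) : PowerSeries ℚ)) := by
      have h3 : (∏ k, ((e k).choose (e' k) : PowerSeries ℚ)) =
          PowerSeries.C (((∏ k, (e k).choose (e' k) : ℕ) : ℤ) : ℚ) := by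
        push_cast
        rw [map_prod]
        simp
      rw [h3]
      exact typ_int _ _
    have hL : Typ q D (∏ k, lamG (κ k) (x k : ℚ) (y k : ℚ) (1 / N) ^ (e k - e' k)) := by
      refine typ_mono (typ_prod h1 Finset.univ (fun k => (e k - e' k) * 1) _
        fun k _ => typ_pow h1 (hlam k) _) ?_
      refine le_trans (Finset.sum_le_sum fun k _ => ?_) hsum
      rw [mul_one]
      exact Nat.sub_le _ _
    have h3 := h1 q _ _ _ _ (h1 q _ _ _ _ hT hC) hL
    rw [zero_add, zero_add] at h3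
    rw [← mul_assoc, ← mul_assoc]
    exact h3
  obtain ⟨z, hz⟩ := hG i
  refine ⟨z, ?_⟩
  rw [PowerSeries.coeff_C_mul] at hz
  rw [← hz]
  unfold Gc
  rw [hq]
  push_cast
  ring

end Pool.Agent.H2.GPO
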